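import Pool.Agent.Q54.EM.StmC

/-!
# Project EM (helper54), job EM-PW: inequality (P)
-/

set_option autoImplicit false

namespace Pool.Agent.Q202.EM

open Finset Pool.Agent.Q54.EM

theorem EE_add {ι : Type} [Fintype ι] (p x : ι → ℝ) (n : ℕ) : ∀ f g : ℝ → ℝ,
    EE p x n (fun s => f s + g s) = EE p x n f + EE p x n g := by
  induction n with
  | zero => intro f g; rfl
  | succ n ih =>
    intro f g
    simp only [EE]
    rw [← sum_add_distrib]
    refine sum_congr rfl fun i _ => ?_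
    rw [ih (fun s => f (s + x i)) (fun s => g (s + x i)), mul_add]

theorem EE_smul {ι : Type} [Fintype ι] (p x : ι → ℝ) (n : ℕ) : ∀ (c : ℝ) (f : ℝ → ℝ),
    EE p x n (fun s => c * f s) = c * EE p x n f := by
  induction n with
  | zero => intro c f; rfl
  | succ n ih =>
    intro c f
    simp only [EE]
    rw [mul_sum]
    refine sum_congr rfl fun i _ => ?_
    rw [ih c (fun s => f (s + x i))]
    ring

theorem EE_nonneg {ι : Type} [Fintype ι] (p x : ι → ℝ) (n : ℕ) (hp : ∀ i, 0 ≤ p i) :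
    ∀ f : ℝ → ℝ, (∀ s, 0 ≤ f s) → 0 ≤ EE p x n f := by
  induction n with
  | zero => intro f hf; exact hf 0
  | succ n ih =>
    intro f hf
    exact sum_nonneg fun i _ => mul_nonneg (hp i) (ih _ fun s => hf _)

/-- the variance is nonnegative -/
theorem VV_nonneg {ι : Type} [Fintype ι] (p x : ι → ℝ) (k : ℕ) (hp : ∀ i, 0 ≤ p i)
    (hW : 0 < PR p x k k) : 0 ≤ VV k p x := by
  set t : ℝ := GP p x k k / PR p x k k with ht
  have h1 : 0 ≤ EE p x k (fun s => (max ((k : ℝ) - s) 0) ^ 2 +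
      ((-2 * t) * max ((k : ℝ) - s) 0 + t ^ 2 * (if s < (k : ℝ) then 1 else 0))) := by
    refine EE_nonneg p x k hp _ fun s => ?_
    by_cases h : s < (k : ℝ)
    · rw [if_pos h, max_eq_left (by linarith)]
      nlinarith [sq_nonneg ((k : ℝ) - s - t)]
    · rw [if_neg h, max_eq_right (by linarith [not_lt.1 h])]
      simp
  rw [EE_add, EE_add, EE_smul, EE_smul] at h1
  have e1 : EE p x k (fun s => (max ((k : ℝ) - s) 0) ^ 2) = G2 p x k k := rfl
  have e2 : EE p x k (fun s => max ((k : ℝ) - s) 0) = GP p x k k := rfl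
  have e3 : EE p x k (fun s => if s < (k : ℝ) then 1 else 0) = PR p x k k := rfl
  rw [e1, e2, e3] at h1
  have h2 : GP p x k k = t * PR p x k k := by
    rw [ht, div_mul_cancel₀ _ hW.ne']
  rw [h2] at h1
  have h3 : 0 ≤ (G2 p x k k / PR p x k k - t ^ 2) * PR p x k k := by
    have : (G2 p x k k / PR p x k k - t ^ 2) * PR p x k k = G2 p x k k - t ^ 2 * PR p x k k := by
      rw [sub_mul, div_mul_cancel₀ _ hW.ne']
    rw [this]
    linarith
  have h4 : VV k p x = G2 p x k k / PR p x k k - t ^ 2 := rfl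
  rw [h4]
  exact nonneg_of_mul_nonneg_left h3 hW

theorem psi_antitone {ι : Type} [Fintype ι] (p x : ι → ℝ) (hp : ∀ i, 0 ≤ p i) {y z : ℝ}
    (h : y ≤ z) : psi p x z ≤ psi p x y := by
  unfold psi
  refine sum_le_sum fun i _ => mul_le_mul_of_nonneg_left ?_ (hp i)
  have h1 : max (x i - z) 0 ≤ max (x i - y) 0 := max_le_max (by linarith) le_rfl
  exact pow_le_pow_left₀ (le_max_right _ _) h1 2

/-- the algebra -/
theorem alg {C c0 m d V : ℝ} (hV : 0 ≤ V) (hc0 : 0 ≤ c0) (hC : c0 ≤ C) (hm : 0 ≤ m) (hd : 0 ≤ d)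
    (h : C ^ 2 ≤ V * (m * C + d)) : c0 ^ 2 ≤ V * (m * c0 + d) := by
  rcases hc0.eq_or_lt with h0 | h0
  · rw [← h0]
    have := mul_nonneg hV hd
    nlinarith
  · have hCp : 0 < C := lt_of_lt_of_le h0 hC
    have h1 : c0 ^ 2 * (m * C + d) ≤ C ^ 2 * (m * c0 + d) := by
      have e1 : 0 ≤ m * c0 * C * (C - c0) :=
        mul_nonneg (mul_nonneg (mul_nonneg hm hc0) hCp.le) (by linarith)
      have e2 : 0 ≤ d * ((C - c0) * (C + c0)) :=
        mul_nonneg hd (mul_nonneg (by linarith) (by linarith))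
      nlinarith
    have h2 : V * (c0 ^ 2 * (m * C + d)) ≤ V * (C ^ 2 * (m * c0 + d)) :=
      mul_le_mul_of_nonneg_left h1 hV
    have h3 : c0 ^ 2 * C ^ 2 ≤ c0 ^ 2 * (V * (m * C + d)) :=
      mul_le_mul_of_nonneg_left h (sq_nonneg _)
    have h4 : c0 ^ 2 * C ^ 2 ≤ (V * (m * c0 + d)) * C ^ 2 := by nlinarith
    exact le_of_mul_le_mul_right h4 (by positivity)

theorem pw : S_VP1 → S_VP2 → S_VP3 → S_VB → S_IDT → S_LH → S_THT → S_LMB → S_POS → S_PW := by
  intro hVP1 hVP2 hVP3 hVB hIDT _ hTHT hLMB hPOS ι _ p x k l hk hL hm0 hm1 hKK hva hle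
  have hk1 : 1 ≤ k := by omega
  have hkr : (0 : ℝ) < k := by exact_mod_cast (by omega : 0 < k)
  have hkr1 : (0 : ℝ) ≤ (k : ℝ) - 1 := by
    have : (1 : ℝ) ≤ k := by exact_mod_cast hk1
    linarith
  have hp : ∀ i, 0 ≤ p i := fun i => (hL.pos i).le
  have hW : 0 < PR p x k k := (hPOS ι p x hL).1 k k le_rfl hk1 hm1
  have hw1 : 0 < PR p x (k - 1) k := (hPOS ι p x hL).1 (k - 1) k (by omega) hk1 hm1
  have hl : 0 < l := hKK.1
  obtain ⟨hlam, hxl⟩ := hLMB ι p x k l hk1 hL hm1 hKK
  have hTHT' := hTHT ι p x k l hk1 hL hm1 hKK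
  have hIDT' := hIDT ι p x k l hk1 hL hm1 hKK
  have h1 := hVP1 ι p x k l hk1 hL hm1 hKK
  have h2 := hVP2 ι p x k l hk hL hm1 hKK
  have h3 := hVP3 ι p x k l hk1 hL hm1 hKK
  have h4 := hVB ι p x (fun i => psi p x (x i)) k hk hL hW
    (fun i j hij => psi_antitone p x hp hij)
  have hVV := VV_nonneg p x k hp hW
  have hvw : 0 ≤ vw p x := by
    unfold vw
    exact sum_nonneg fun i _ => sum_nonneg fun j _ =>
      mul_nonneg (mul_nonneg (hp i) (hp j)) (mul_nonneg (hL.nn i) (sq_nonneg _))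
  have hLW : lam k p x * PR p x (k - 1) k = PR p x k k := by
    unfold lam
    rw [div_mul_cancel₀ _ hw1.ne']
  have hVVW : G2 p x k k - GP p x k k ^ 2 / PR p x k k = PR p x k k * VV k p x := by
    unfold VV hh
    field_simp
  rw [← hTHT'] at h3
  rw [hVVW] at h4
  have hLpos : 0 < lam k p x := div_pos hW hw1
  have het : et k p x = k * (mu p x - (1 - hh k p x / k)) := by
    unfold et
    field_simp
    ring
  unfold BB
  -- abbreviations
  generalize PR p x k k = W at *
  generalize PR p x (k - 1) k = w1 at *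
  generalize lam k p x = L at *
  generalize CC k p x (fun i => psi p x (x i)) = CC0 at *
  generalize PP k p x (fun i => psi p x (x i)) = PP0 at *
  generalize CR k p x (fun i => psi p x (x i)) = CR0 at *
  generalize VV k p x = U at *
  generalize et k p x = E at *
  generalize mu p x = m at *
  generalize va p x = V at *
  generalize (1 - hh k p x / k) = t at *
  generalize hwdef : vw p x / V = w at *
  have hvwV : vw p x = w * V := by rw [← hwdef, div_mul_cancel₀ _ hva.ne']
  rw [hvwV] at h1 h2 h3 hle hvw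
  have hw0 : 0 ≤ w := nonneg_of_mul_nonneg_left hvw hva
  have hwt : w ≤ t := le_of_mul_le_mul_right hle hva
  have hE : 0 < E := by
    have e1 : 0 < E * (L * l) := by
      rw [← mul_assoc, ← hIDT']
      exact mul_pos hkr hva
    exact pos_of_mul_pos_left e1 (mul_pos hLpos hl).le
  have htm : t ≤ m := by
    rw [het] at hE
    have := pos_of_mul_pos_right hE hkr.le
    linarith
  -- the quantities divided by `W`
  have hC : k * V * (t - w) ≤ CC0 / W := by
    rw [le_div_iff₀ hW, ← hLW]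
    refine le_trans (le_of_eq ?_) h3
    ring
  have hP : PP0 / W ≤ m * (CC0 / W) + E * V * w := by
    rw [div_le_iff₀ hW]
    refine h1.trans (le_of_eq ?_)
    rw [add_mul, mul_assoc m, div_mul_cancel₀ _ hW.ne', ← hLW]
    have e1 : k * V * w1 * (w * V) / l = (k * V) * (w1 * (w * V) / l) := by ring
    rw [e1, hIDT']
    field_simp
  have hR : CR0 / W ≤ (k - 1) * (E * V * (m - w)) := by
    rw [div_le_iff₀ hW]
    refine h2.trans (le_of_eq ?_)
    rw [← hLW]
    have e1 : k * (k - 1) * V * w1 * (m * V - w * V) / l =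
      (k * V) * ((k - 1) * w1 * (m * V - w * V) / l) := by ring
    rw [e1, hIDT']
    field_simp
  have hmain : (CC0 / W) ^ 2 ≤ U * (m * (CC0 / W) + (E * V * w + (k - 1) * (E * V * (m - w)))) := by
    have e1 : (CC0 / W) ^ 2 ≤ U * (PP0 / W + CR0 / W) := by
      rw [div_pow, div_le_iff₀ (by positivity)]
      refine h4.trans (le_of_eq ?_)
      field_simp
    refine e1.trans (mul_le_mul_of_nonneg_left ?_ hVV)
    linarith
  have hd : 0 ≤ E * V * w + (k - 1) * (E * V * (m - w)) := by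
    have e1 : 0 ≤ E * V := (mul_pos hE hva).le
    exact add_nonneg (mul_nonneg e1 hw0) (mul_nonneg hkr1 (mul_nonneg e1 (by linarith)))
  have hc0 : 0 ≤ k * V * (t - w) := mul_nonneg (mul_pos hkr hva).le (by linarith)
  have hfin := alg hVV hc0 hC hm0.le hd hmain
  have e2 : m * (k * V * (t - w)) + (E * V * w + (k - 1) * (E * V * (m - w))) =
      (k * V) * ((m - w) * (t + (k - 1) * (m - t))) := by
    rw [het]
    ring
  rw [e2] at hfin
  have hkV : 0 < k * V := mul_pos hkr hva
  have e3 : (k * V) * (k * V * (t - w) ^ 2) ≤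
      (k * V) * (U * (m - w) * (t + (k - 1) * (m - t))) := by
    calc (k * V) * (k * V * (t - w) ^ 2) = (k * V * (t - w)) ^ 2 := by ring
      _ ≤ U * ((k * V) * ((m - w) * (t + (k - 1) * (m - t)))) := hfin
      _ = _ := by ring
  exact le_of_mul_le_mul_left e3 hkV

end Pool.Agent.Q202.EM
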